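import Mathlib
import Pool.Agent.helper391_DG.Arith

set_option autoImplicit false

/-! Smooth multipliers of `b ^ k - 1`, `k` prime. -/

namespace Pool.Agent.helper391_NV

open Finset
open Pool.Agent.helper391_DG

/-- a divisor of `b ^ k - 1` with small prime factors divides `b - 1` -/
theorem smooth_dvd {b k g : ℕ} (hb : 2 ≤ b) (hk : k.Prime)
    (hg : ∀ p : ℕ, p.Prime → p ∣ g → p < k) (h : g ∣ b ^ k - 1) : g ∣ b - 1 := by
  obtain ⟨c, rfl⟩ := Nat.exists_eq_add_of_le (by omega : 1 ≤ b)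
  rw [Nat.add_sub_cancel_left]
  set S := ∑ i ∈ range k, (1 + c) ^ i with hS
  have hgeom : (1 + c) ^ k - 1 = c * S := by
    have h1 : S * c + 1 = (1 + c) ^ k := by
      have := Commute.geom_sum₂_mul (Commute.all ((1 + c : ℕ) : ℤ) 1) k
      have h2 := geom_sum_mul ((1 + c : ℕ) : ℤ) k
      have h3 : ((S * c + 1 : ℕ) : ℤ) = (((1 + c) ^ k : ℕ) : ℤ) := by
        push_cast
        push_cast at h2
        rw [hS]
        push_cast
        have e : (1 : ℤ) + c - 1 = c := by ring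
        rw [e] at h2
        rw [h2]; ring
      exact_mod_cast h3
    rw [← h1]
    rw [Nat.add_sub_cancel, mul_comm]
  have hcop : Nat.Coprime g S := by
    rw [Nat.coprime_iff_gcd_eq_one]
    by_contra hne
    obtain ⟨p, hp, hpd⟩ := Nat.exists_prime_and_dvd hne
    have h1 : p ∣ g := hpd.trans (Nat.gcd_dvd_left _ _)
    have h2 : p ∣ S := hpd.trans (Nat.gcd_dvd_right _ _)
    have h3 : p < k := hg p hp h1
    have h4 : p ∣ c := by
      have := small_dvd hb hk hp.pos h3 (h1.trans h)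
      rwa [Nat.add_sub_cancel_left] at this
    -- `S ≡ k (mod p)`
    have h5 : (S : ZMod p) = k := by
      rw [hS]
      push_cast
      have : (c : ZMod p) = 0 := (ZMod.natCast_eq_zero_iff _ _).2 h4
      rw [this]
      simp
    have h6 : (S : ZMod p) = 0 := (ZMod.natCast_eq_zero_iff _ _).2 h2
    rw [h6] at h5
    have h7 : p ∣ k := (ZMod.natCast_eq_zero_iff _ _).1 h5.symm
    have h8 := (Nat.prime_dvd_prime_iff_eq hp hk).1 h7
    omega
  rw [hgeom] at h
  exact hcop.dvd_of_dvd_mul_right h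

/-- lower bound for `φ(d) / d` -/
theorem tot_ge' {b m k E : ℕ} (hb : 2 ≤ b) (hm : 1 ≤ m) (hE : 1 ≤ E)
    (hmE : ∀ p : ℕ, p.Prime → p ∣ m → p ∣ E) (hk : k.Prime)
    (hlog : Real.log b / Real.log k ≤ 1 / 2) :
    1 / (2 * (E * (b - 1 : ℕ)) : ℝ) ≤ (Nat.totient ((b ^ k - 1) * m) : ℝ) / ((b ^ k - 1) * m : ℕ) := by
  refine (tot_ge hb hE hk hlog).trans ?_
  classical
  have hpos : 0 < b ^ k - 1 := by
    have : 2 ^ 1 ≤ b ^ k := (Nat.pow_le_pow_left hb 1).trans
      (Nat.pow_le_pow_right (by omega) hk.pos)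
    omega
  set d := (b ^ k - 1) * m with hd
  set d' := (b ^ k - 1) * E with hd'
  have hd0 : d ≠ 0 := by positivity
  have hd'0 : d' ≠ 0 := by positivity
  have htot : ∀ x : ℕ, x ≠ 0 → (Nat.totient x : ℝ) / x = ∏ p ∈ x.primeFactors, (1 - 1 / (p : ℝ)) := by
    intro x hx
    have h1 := Nat.totient_eq_mul_prod_factors x
    have h2 : ((Nat.totient x : ℚ) : ℝ) = ((x * ∏ p ∈ x.primeFactors, (1 - (p : ℚ)⁻¹) : ℚ) : ℝ) := by
      rw [h1]
    push_cast at h2
    rw [h2, mul_div_cancel_left₀ _ (by exact_mod_cast hx)]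
    apply Finset.prod_congr rfl
    intro p _
    rw [one_div]
  rw [htot d hd0, htot d' hd'0]
  have hsub : d.primeFactors ⊆ d'.primeFactors := by
    intro p hp
    rw [Nat.mem_primeFactors] at hp ⊢
    obtain ⟨hp1, hp2, -⟩ := hp
    refine ⟨hp1, ?_, hd'0⟩
    rcases hp1.dvd_mul.1 hp2 with h | h
    · exact h.trans (Dvd.intro _ rfl)
    · exact (hmE p hp1 h).trans (Dvd.intro_left _ rfl)
  have hfac : ∀ p ∈ d'.primeFactors, (0 : ℝ) ≤ 1 - 1 / (p : ℝ) ∧ 1 - 1 / (p : ℝ) ≤ 1 := by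
    intro p hp
    have h1 : (1 : ℝ) ≤ p := by exact_mod_cast (Nat.prime_of_mem_primeFactors hp).one_lt.le
    have h3 : 1 / (p : ℝ) ≤ 1 := by rw [div_le_one (by linarith)]; exact h1
    have h4 : 0 ≤ 1 / (p : ℝ) := by positivity
    constructor <;> linarith
  rw [← Finset.prod_sdiff hsub]
  have h2 : ∏ p ∈ d'.primeFactors \ d.primeFactors, (1 - 1 / (p : ℝ)) ≤ 1 := by
    apply Finset.prod_le_one
    · intro p hp; exact (hfac p (mem_sdiff.1 hp).1).1
    · intro p hp; exact (hfac p (mem_sdiff.1 hp).1).2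
  have h3 : 0 ≤ ∏ p ∈ d.primeFactors, (1 - 1 / (p : ℝ)) :=
    Finset.prod_nonneg (fun p hp => (hfac p (hsub hp)).1)
  nlinarith

/-- the large prime factors of `d = (b ^ k - 1) m` -/
theorem large_sum' {b m k P : ℕ} (hb : 2 ≤ b)
    (hmP : ∀ p : ℕ, p.Prime → p ∣ m → p ≤ P) (hk : k.Prime) (T : ℝ)
    (hT1 : (P : ℝ) ≤ T) (hT2 : (b : ℝ) ≤ T) :
    ∑ p ∈ ((b ^ k - 1) * m).primeFactors with T < ((p : ℕ) : ℝ), 1 / ((p : ℕ) : ℝ) ≤
      Real.log b / Real.log k := by
  classical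
  refine le_trans ?_ (newp_sum hb hk)
  apply Finset.sum_le_sum_of_subset_of_nonneg
  · intro p hp
    rw [mem_filter, Nat.mem_primeFactors] at hp
    obtain ⟨⟨hp1, hp2, hp3⟩, hp4⟩ := hp
    have hpos : b ^ k - 1 ≠ 0 := fun h => hp3 (by rw [h, zero_mul])
    have h1 : ¬ p ∣ m := by
      intro h
      have : p ≤ P := hmP p hp1 h
      have : (p : ℝ) ≤ P := by exact_mod_cast this
      linarith
    have h2 : ¬ p ∣ b - 1 := by
      intro h
      have : p ≤ b - 1 := Nat.le_of_dvd (by omega) h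
      have : (p : ℝ) ≤ b := by exact_mod_cast this.trans (Nat.sub_le _ _)
      linarith
    unfold newp
    rw [mem_filter, Nat.mem_primeFactors]
    exact ⟨⟨hp1, (hp1.dvd_mul.1 hp2).resolve_right h1, hpos⟩, h2⟩
  · intro p _ _
    positivity

end Pool.Agent.helper391_NV
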