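import Mathlib
import Pool.Agent.helper391_DG.Main
import Pool.Agent.helper391_NV.Arith

set_option autoImplicit false

/-! Record gaps around integers with a prescribed sum of digits, divisible by a smooth number. -/

namespace Pool.Agent.helper391_NV

open Filter
open Pool.Agent.helper391_DG

theorem pow_large (b H : ℕ) (hb : 2 ≤ b) : ∀ᶠ k : ℕ in atTop, 4 * (k ^ H) ^ 3 ≤ b ^ k := by
  have h1 := tendsto_pow_const_div_const_pow_of_one_lt (H * 3) (show (1 : ℝ) < b by exact_mod_cast hb)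
  have h2 := h1.eventually (gt_mem_nhds (show (0 : ℝ) < 1 / 4 by norm_num))
  filter_upwards [h2] with k hk
  have h3 : (0 : ℝ) < (b : ℝ) ^ k := by
    have : (0 : ℝ) < b := by exact_mod_cast (by omega : 0 < b)
    positivity
  rw [div_lt_iff₀ h3] at hk
  have h4 : 4 * (((k : ℝ)) ^ H) ^ 3 ≤ (b : ℝ) ^ k := by
    rw [← pow_mul]; linarith
  exact_mod_cast h4

/-- the conditions on `k` -/
theorem cond2 (b P H : ℕ) (hb : 2 ≤ b) (x₀ : ℝ) : ∀ᶠ k : ℕ in atTop,
    x₀ ≤ len b k ∧ P < k ∧ (∀ m : ℕ, m ≤ k ^ H →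
      (((b ^ k - 1) * m : ℕ) : ℝ) ≤ (len b k : ℝ) ^ (1 - 1 / 3 : ℝ)) ∧
    (max (P : ℝ) b ≤ Real.exp (Real.log (Real.log (len b k)) *
      Real.log (Real.log (Real.log (Real.log (len b k)))) /
        (20 * Real.log (Real.log (Real.log (len b k)))))) ∧
    Real.log b / Real.log k ≤ 2 * Real.log b / Real.log (Real.log (len b k)) ∧
    Real.log b / Real.log k ≤ 1 / 2 ∧
    k * Real.log b ≤ Real.log (len b k) ∧ Real.log (len b k) ≤ 2 * k * Real.log b := by
  have hlt := len_tendsto b hb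
  have hbR : (2 : ℝ) ≤ b := by exact_mod_cast hb
  have hlb : 0 < Real.log b := Real.log_pos (by linarith)
  have hlogk : Tendsto (fun k : ℕ => Real.log (k : ℝ)) atTop atTop :=
    Real.tendsto_log_atTop.comp tendsto_natCast_atTop_atTop
  have hll : Tendsto (fun k : ℕ => Real.log (Real.log (len b k : ℝ))) atTop atTop :=
    (Real.tendsto_log_atTop.comp Real.tendsto_log_atTop).comp hlt
  filter_upwards [hlt.eventually_ge_atTop x₀, eventually_gt_atTop P, eventually_ge_atTop 1,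
    pow_large b H hb, hlt.eventually (thr_large (max (P : ℝ) b)),
    hlogk.eventually_ge_atTop (2 * Real.log b), hlogk.eventually_ge_atTop (Real.log (2 * Real.log b)),
    hlogk.eventually_ge_atTop 1, hll.eventually_ge_atTop 1] with k h1 h2 h3 h4 h5 h6 h7 h8 h9
  have hN : k < b ^ k := Nat.lt_pow_self (by omega)
  set N := b ^ k with hNdef
  have hN2 : 2 ≤ N := by omega
  have hNR : (2 : ℝ) ≤ N := by exact_mod_cast hN2
  have hx : (len b k : ℝ) = N * (N - 1) := by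
    unfold len
    rw [← hNdef]
    push_cast [Nat.cast_sub (by omega : 1 ≤ N)]
    ring
  have hlogN : Real.log N = k * Real.log b := by
    rw [hNdef]; push_cast; rw [Real.log_pow]
  have hx1 : (N : ℝ) ≤ len b k := by rw [hx]; nlinarith
  have hx2 : (len b k : ℝ) ≤ N ^ 2 := by rw [hx]; nlinarith
  have hx3 : (N : ℝ) ^ 2 / 2 ≤ len b k := by rw [hx]; nlinarith
  have hup : Real.log (len b k) ≤ 2 * k * Real.log b := by
    have := Real.log_le_log (by linarith) hx2
    rw [Real.log_pow, hlogN] at this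
    push_cast at this
    linarith
  have hlo : k * Real.log b ≤ Real.log (len b k) := by
    rw [← hlogN]
    exact Real.log_le_log (by linarith) hx1
  have hkR : (1 : ℝ) ≤ k := by exact_mod_cast h3
  refine ⟨h1, h2, ?_, h5, ?_, ?_, hlo, hup⟩
  · -- the size of the modulus
    intro m hmk
    have hd : (((N - 1) * m : ℕ) : ℝ) ≤ m * N := by
      push_cast [Nat.cast_sub (by omega : 1 ≤ N)]
      have : (0 : ℝ) ≤ m := Nat.cast_nonneg m
      nlinarith
    have hm3 : 4 * (m : ℝ) ^ 3 ≤ N := by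
      have : 4 * m ^ 3 ≤ N := by
        calc 4 * m ^ 3 ≤ 4 * (k ^ H) ^ 3 := by gcongr
          _ ≤ N := h4
      exact_mod_cast this
    have h10 : ((m : ℝ) * N) ^ 3 ≤ (len b k : ℝ) ^ 2 := by
      have h11 : ((N : ℝ) ^ 2 / 2) ^ 2 ≤ (len b k : ℝ) ^ 2 :=
        pow_le_pow_left₀ (by positivity) hx3 2
      have h12 : (4 * (m : ℝ) ^ 3) * N ^ 3 ≤ N * N ^ 3 := by gcongr
      nlinarith
    have hx0 : (0 : ℝ) ≤ len b k := by linarith
    have h13 : (len b k : ℝ) ^ (1 - 1 / 3 : ℝ) = ((len b k : ℝ) ^ 2) ^ (1 / 3 : ℝ) := by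
      rw [← Real.rpow_natCast (len b k : ℝ) 2, ← Real.rpow_mul hx0]
      norm_num
    rw [h13]
    have h14 : ((m : ℝ) * N) = (((m : ℝ) * N) ^ 3) ^ (1 / 3 : ℝ) := by
      rw [← Real.rpow_natCast ((m : ℝ) * N) 3, ← Real.rpow_mul (by positivity)]
      norm_num
    refine hd.trans ?_
    rw [h14]
    exact Real.rpow_le_rpow (by positivity) h10 (by norm_num)
  · -- `log log x ≤ 2 log k`
    have h10 : Real.log (Real.log (len b k)) ≤ 2 * Real.log k := by
      have h11 : 0 < Real.log (len b k : ℝ) := lt_of_lt_of_le (by positivity) hlo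
      have h12 := Real.log_le_log h11 hup
      have e : 2 * (k : ℝ) * Real.log b = (2 * Real.log b) * k := by ring
      rw [e, Real.log_mul (by positivity) (by positivity)] at h12
      linarith
    rw [div_le_div_iff₀ (by linarith) (by linarith)]
    nlinarith
  · rw [div_le_div_iff₀ (by linarith) (by norm_num)]
    linarith

theorem main2 (b P h : ℕ) (hb : 2 ≤ b) (C : ℝ) (δ : ℝ) (hδ : 0 < δ) :
    ∃ κ : ℝ, 0 < κ ∧ ∃ r₀ : ℕ, ∀ r : ℕ, r₀ ≤ r → ∀ m : ℕ, 1 ≤ m → (m : ℝ) ≤ C * (r : ℝ) ^ h →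
      (∀ p : ℕ, p.Prime → p ∣ m → p ≤ P) → ∀ A t a : ℕ, δ * r ≤ t →
      (t : ℝ) ≤ ((b : ℝ) - 1 - δ) * r → a ≡ ds b A + t [MOD Nat.gcd m (b - 1)] →
      ∃ n : ℕ, A * b ^ r ≤ n ∧ n < (A + 1) * b ^ r ∧ ds b n = ds b A + t ∧ n ≡ a [MOD m] ∧
        ∀ p : ℕ, p.Prime → κ * F (Real.log ((b : ℝ) ^ r)) < |(p : ℝ) - n| := by
  have hbR : (2 : ℝ) ≤ b := by exact_mod_cast hb
  have hb1 : 0 < (b : ℝ) - 1 := by linarith
  have hlb : 0 < Real.log b := Real.log_pos (by linarith)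
  obtain ⟨c, hc, x₀, hbb⟩ := Pool.Agent.Results.MP_3bc45c_nt.RecordGapsAtPrescribedPlaces.result
    (1 / 3) (2 * Real.log b) (by norm_num) (by norm_num) (by linarith)
  set η : ℝ := δ / (2 * ((b : ℝ) - 1)) with hη
  have hη0 : 0 < η := by positivity
  obtain ⟨R, hR⟩ := F_scale η hη0
  obtain ⟨k₀, hk₀⟩ := eventually_atTop.1 (cond2 b P (h + 1) hb x₀)
  have hE0 : (0 : ℝ) < (Nat.factorial P : ℕ) := by exact_mod_cast Nat.factorial_pos P
  set c' : ℝ := c * (1 / (2 * ((Nat.factorial P : ℕ) * (b - 1 : ℕ)) : ℝ)) * (η / 8) with hc'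
  have hb1' : (0 : ℝ) < ((b - 1 : ℕ) : ℝ) := by
    have : 0 < b - 1 := by omega
    exact_mod_cast this
  have hc'0 : 0 < c' := by positivity
  -- the conditions on `r`
  have hr₁ : ∀ᶠ r : ℕ in atTop, 2 * ((b : ℝ) - 1) ≤ δ * r ∧ (k₀ : ℝ) ≤ η * r ∧
      R ≤ r * Real.log b ∧ 1 ≤ r ∧ C / η ^ (h + 1) ≤ r := by
    have ht : Tendsto (fun r : ℕ => (r : ℝ)) atTop atTop := tendsto_natCast_atTop_atTop
    filter_upwards [ht.eventually_ge_atTop (2 * ((b : ℝ) - 1) / δ), ht.eventually_ge_atTop (k₀ / η),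
      ht.eventually_ge_atTop (R / Real.log b), eventually_ge_atTop 1,
      ht.eventually_ge_atTop (C / η ^ (h + 1))] with r a1 a2 a3 a4 a5
    refine ⟨?_, ?_, ?_, a4, a5⟩
    · rw [div_le_iff₀ hδ] at a1; linarith
    · rw [div_le_iff₀ hη0] at a2; linarith
    · rw [div_le_iff₀ hlb] at a3; linarith
  obtain ⟨r₀, hr₀⟩ := eventually_atTop.1 hr₁
  refine ⟨c', hc'0, r₀, fun r hr m hm hmC hmP A t a ht1 ht2 ha => ?_⟩
  obtain ⟨a1, a2, a3, a4, a5⟩ := hr₀ r hr
  obtain ⟨k, hk, hk1, hk2⟩ := exists_k b hb δ hδ r a1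
  have hkk₀ : k₀ ≤ k := by
    have : (k₀ : ℝ) ≤ k := a2.trans hk2
    exact_mod_cast this
  obtain ⟨b1, b2, b3, b4, b5, b6, b7, b8⟩ := hk₀ k hkk₀
  have hrR : (1 : ℝ) ≤ r := by exact_mod_cast a4
  have hmk : m ≤ k ^ (h + 1) := by
    have h1 : (m : ℝ) ≤ (k : ℝ) ^ (h + 1) := by
      have h2 : C ≤ η ^ (h + 1) * r := by
        rw [div_le_iff₀ (by positivity)] at a5
        linarith
      have h3 : (η * r) ^ (h + 1) ≤ (k : ℝ) ^ (h + 1) := pow_le_pow_left₀ (by positivity) hk2 _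
      have h4 : C * (r : ℝ) ^ h ≤ η ^ (h + 1) * r * (r : ℝ) ^ h :=
        mul_le_mul_of_nonneg_right h2 (by positivity)
      have h5 : η ^ (h + 1) * r * (r : ℝ) ^ h = (η * r) ^ (h + 1) := by
        rw [mul_pow, pow_succ (r : ℝ) h]; ring
      linarith
    exact_mod_cast h1
  -- inequalities between `k`, `r`, `t`
  have hbc : ((b - 1 : ℕ) : ℝ) = (b : ℝ) - 1 := by
    rw [Nat.cast_sub (by omega)]; simp
  have h2k : 2 * k ≤ r := by
    have h1 : δ * r ≤ ((b : ℝ) - 1 - δ) * r := ht1.trans ht2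
    have h2 : 2 * (((b : ℝ) - 1) * k) ≤ ((b : ℝ) - 1) * r := by nlinarith
    have h3 : ((b : ℝ) - 1) * (2 * k) ≤ ((b : ℝ) - 1) * r := by linarith
    have h4 := le_of_mul_le_mul_left h3 hb1
    exact_mod_cast h4
  have hkt : (b - 1) * k ≤ t := by
    have : (((b - 1) * k : ℕ) : ℝ) ≤ t := by
      push_cast [hbc]
      linarith
    exact_mod_cast this
  have htA : t - (b - 1) * k ≤ (b - 1) * (r - 2 * k) := by
    have h1 : (t : ℝ) + (((b - 1) * k : ℕ) : ℝ) ≤ (((b - 1) * r : ℕ) : ℝ) := by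
      push_cast [hbc]
      nlinarith
    have h2 : t + (b - 1) * k ≤ (b - 1) * r := by exact_mod_cast h1
    have h3 : (b - 1) * (r - 2 * k) + (b - 1) * (2 * k) = (b - 1) * r := by
      rw [← Nat.mul_add]; congr 1; omega
    have h4 : (b - 1) * (2 * k) = (b - 1) * k + (b - 1) * k := by ring
    omega
  obtain ⟨A', hA', hA't⟩ := exists_ds hb (r - 2 * k) _ htA
  -- the left endpoint
  set B : ℕ := A * b ^ (r - 2 * k) + A' with hB
  set z : ℕ := B * b ^ (2 * k) with hz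
  have hdsB : ds b B = ds b A + (t - (b - 1) * k) := by
    rw [hB, ds_split hb _ _ _ hA', hA't]
  have hdsz : ds b z = ds b B := by
    have := ds_split hb (2 * k) B 0 (pow_pos (by omega) _)
    rw [add_zero, ds_zero, add_zero] at this
    exact this
  have hNk : k < b ^ k := Nat.lt_pow_self (by omega)
  have hq0 : 0 < b ^ k - 1 := by have := hk.two_le; omega
  -- compatibility of the congruences
  have hcomp : z ≡ a [MOD Nat.gcd (b ^ k - 1) m] := by
    have hg0 : 0 < Nat.gcd (b ^ k - 1) m := Nat.gcd_pos_of_pos_left _ hq0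
    have hgb : Nat.gcd (b ^ k - 1) m ∣ b - 1 :=
      smooth_dvd hb hk (fun p hp hpg => lt_of_le_of_lt (hmP p hp (hpg.trans (Nat.gcd_dvd_right _ _))) b2)
        (Nat.gcd_dvd_left _ _)
    have hgg : Nat.gcd (b ^ k - 1) m ∣ Nat.gcd m (b - 1) :=
      Nat.dvd_gcd (Nat.gcd_dvd_right _ _) hgb
    have h1 : z ≡ ds b z [MOD Nat.gcd (b ^ k - 1) m] := (ds_modEq hb z).of_dvd hgb
    have h2 : a ≡ ds b A + t [MOD Nat.gcd (b ^ k - 1) m] := ha.of_dvd hgg
    refine h1.trans (Nat.ModEq.trans ?_ h2.symm)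
    rw [hdsz, hdsB]
    have h3 : ds b A + t = ds b A + (t - (b - 1) * k) + (b - 1) * k := by omega
    rw [h3]
    have h4 : (b - 1) * k ≡ 0 [MOD Nat.gcd (b ^ k - 1) m] :=
      Nat.modEq_zero_iff_dvd.2 (hgb.trans (Dvd.intro _ rfl))
    have h5 := (Nat.ModEq.add_left (ds b A + (t - (b - 1) * k)) h4).symm
    rw [add_zero] at h5
    exact h5
  obtain ⟨c₀, hc1, hc2⟩ := Nat.chineseRemainder' hcomp
  obtain ⟨n, hn1, hn2, hn3, hn4⟩ := hbb (len b k) b1 ((b ^ k - 1) * m)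
    (Nat.mul_pos hq0 (by omega)) (b3 m hmk) ((large_sum' hb hmP hk _ ((le_max_left _ _).trans b4)
      ((le_max_right _ _).trans b4)).trans b5) c₀ z
  have hnz : n ≡ z [MOD b ^ k - 1] := (hn1.of_dvd (Dvd.intro _ rfl)).trans hc1
  have hna : n ≡ a [MOD m] := (hn1.of_dvd (Dvd.intro_left _ rfl)).trans hc2
  obtain ⟨j, hj⟩ := (Nat.modEq_iff_dvd' hn2.le).1 hnz.symm
  have hnj : n = z + j * (b ^ k - 1) := by
    rw [mul_comm] at hj; omega
  have hj1 : 1 ≤ j := by
    rcases Nat.eq_zero_or_pos j with h | h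
    · rw [h] at hnj; omega
    · exact h
  have hjle : j ≤ b ^ k := by
    have h1 : (n : ℝ) ≤ ((z + len b k : ℕ) : ℝ) := by push_cast; exact hn3
    have h2 : n ≤ z + len b k := by exact_mod_cast h1
    rw [hnj] at h2
    have h3 : j * (b ^ k - 1) ≤ b ^ k * (b ^ k - 1) := by
      unfold len at h2; omega
    exact Nat.le_of_mul_le_mul_right h3 hq0
  have hjlt : j * (b ^ k - 1) < b ^ (2 * k) := by
    have h1 : b ^ (2 * k) = b ^ k * b ^ k := by rw [two_mul, pow_add]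
    rw [h1]
    calc j * (b ^ k - 1) ≤ b ^ k * (b ^ k - 1) := Nat.mul_le_mul_right _ hjle
      _ < b ^ k * b ^ k := Nat.mul_lt_mul_of_pos_left (by omega) (by omega)
  have hpow : b ^ (r - 2 * k) * b ^ (2 * k) = b ^ r := by
    rw [← pow_add]; congr 1; omega
  refine ⟨n, ?_, ?_, ?_, hna, ?_⟩
  · rw [hnj, hz, hB, add_mul, mul_assoc, hpow]
    omega
  · rw [hnj, hz, hB, add_mul, mul_assoc, hpow, add_mul, one_mul]
    have h1 : (A' + 1) * b ^ (2 * k) ≤ b ^ (r - 2 * k) * b ^ (2 * k) :=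
      Nat.mul_le_mul_right _ hA'
    rw [hpow, add_mul, one_mul] at h1
    omega
  · rw [hnj, hz, ds_split hb _ _ _ hjlt, ds_mult hb k j hj1 hjle, hdsB]
    omega
  · intro p hp
    refine lt_of_le_of_lt ?_ (hn4 p hp)
    have hlogr : Real.log ((b : ℝ) ^ r) = r * Real.log b := by rw [Real.log_pow]
    rw [hlogr]
    have hL'1 : η * (r * Real.log b) ≤ Real.log (len b k) := by
      refine le_trans ?_ b7
      rw [← mul_assoc]
      exact mul_le_mul_of_nonneg_right hk2 hlb.le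
    have hL'2 : Real.log (len b k) ≤ r * Real.log b := by
      refine b8.trans ?_
      apply mul_le_mul_of_nonneg_right _ hlb.le
      exact_mod_cast h2k
    obtain ⟨hF0, hF1⟩ := hR _ a3 _ hL'1 hL'2
    have htot := tot_ge' hb hm (Nat.factorial_pos P)
      (fun p hp hpm => (Nat.Prime.dvd_factorial hp).2 (hmP p hp hpm)) hk b6
    have hFx : Real.log (len b k) * Real.log (Real.log (len b k)) ^ 2 *
        Real.log (Real.log (Real.log (Real.log (len b k)))) /
          Real.log (Real.log (Real.log (len b k))) ^ 2 = F (Real.log (len b k)) := rfl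
    rw [hFx, hc']
    have hF2 : 0 ≤ η / 8 * F (r * Real.log b) := by positivity
    calc c * (1 / (2 * ((Nat.factorial P : ℕ) * (b - 1 : ℕ)) : ℝ)) * (η / 8) * F (r * Real.log b)
        = c * (1 / (2 * ((Nat.factorial P : ℕ) * (b - 1 : ℕ)) : ℝ) *
          (η / 8 * F (r * Real.log b))) := by ring
      _ ≤ c * ((Nat.totient ((b ^ k - 1) * m) : ℝ) / ((b ^ k - 1) * m : ℕ) *
          F (Real.log (len b k))) := by
          apply mul_le_mul_of_nonneg_left _ hc.le
          exact mul_le_mul htot hF1 hF2 (le_trans (by positivity) htot)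

end Pool.Agent.helper391_NV
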