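import Mathlib
import Pool.Agent.helper391_NV.Main

set_option autoImplicit false

/-! Record gaps around integers divisible by a power of their sum of digits. -/

namespace Pool.Agent.helper391_NV

open Filter
open Pool.Agent.helper391_DG

theorem ds_le {b : ℕ} (hb : 2 ≤ b) (l : ℕ) : ∀ x : ℕ, x < b ^ l → ds b x ≤ (b - 1) * l := by
  induction l with
  | zero =>
    intro x hx
    have : x = 0 := by simpa using hx
    subst this
    rw [ds_zero]; omega
  | succ l ih =>
    intro x hx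
    have hx1 : x = b * (x / b) + x % b := (Nat.div_add_mod x b).symm
    have hx2 : x % b < b := Nat.mod_lt _ (by omega)
    have hx3 : x / b < b ^ l := by
      rw [Nat.div_lt_iff_lt_mul (by omega), ← pow_succ]
      exact hx
    have h1 := ih _ hx3
    have h2 : ds b x = ds b (x / b) + x % b := by
      conv_lhs => rw [hx1]
      exact ds_add hb _ _ hx2
    rw [h2, Nat.mul_succ]
    omega

/-- a smooth multiple of `b - 1` in a short interval -/
theorem exists_s (b : ℕ) (hb : 2 ≤ b) (C₁ : ℝ) (hC₁ : 1 ≤ C₁) : ∃ P : ℕ, ∀ r y : ℕ, 8 * b ≤ r →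
    (y : ℝ) ≤ C₁ * r → ∃ s : ℕ, y < s ∧ 4 * s ≤ 4 * y + r ∧ b - 1 ∣ s ∧
      (∀ p : ℕ, p.Prime → p ∣ s → p ≤ P) := by
  obtain ⟨P₀, hP₀⟩ := exists_nat_gt (8 * (b : ℝ) * C₁ + 1)
  refine ⟨max P₀ (b + 2), fun r y hr hy => ?_⟩
  set u := r / (4 * b) with hu
  have hu2 : 2 ≤ u := by
    rw [hu, Nat.le_div_iff_mul_le (by omega)]
    omega
  set e := Nat.log 2 u with he
  have he1 : 2 ^ e ≤ u := Nat.pow_log_le_self 2 (by omega)
  have he2 : u < 2 ^ (e + 1) := Nat.lt_pow_succ_log_self (by norm_num) u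
  set q := (b - 1) * 2 ^ e with hq
  have hq0 : 0 < q := Nat.mul_pos (by omega) (by positivity)
  have hq4 : 4 * q ≤ r := by
    have h1 : u * (4 * b) ≤ r := Nat.div_mul_le_self r (4 * b)
    have h2 : q ≤ b * u := Nat.mul_le_mul (Nat.sub_le _ _) he1
    nlinarith
  set c := y / q + 1 with hc
  refine ⟨q * c, ?_, ?_, ?_, ?_⟩
  · rw [hc]
    exact Nat.lt_mul_div_succ y hq0
  · have h1 : q * (y / q) ≤ y := Nat.mul_div_le y q
    have h2 : q * c = q * (y / q) + q := by rw [hc]; ring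
    omega
  · exact (Dvd.intro _ rfl : b - 1 ∣ q).trans (Dvd.intro _ rfl)
  · intro p hp hps
    rcases hp.dvd_mul.1 hps with h | h
    · rcases hp.dvd_mul.1 h with h' | h'
      · have := Nat.le_of_dvd (by omega) h'
        exact le_trans (by omega) (le_max_right _ _)
      · have h3 := (Nat.prime_dvd_prime_iff_eq hp Nat.prime_two).1 (hp.dvd_of_dvd_pow h')
        exact le_trans (by omega) (le_max_right _ _)
    · have h1 : p ≤ c := Nat.le_of_dvd (hc ▸ Nat.succ_pos _) h
      refine (h1.trans ?_).trans (le_max_left _ _)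
      have hqR : (0 : ℝ) < q := by exact_mod_cast hq0
      have h2 : ((y / q : ℕ) : ℝ) ≤ 8 * b * C₁ := by
        refine (Nat.cast_div_le).trans ?_
        rw [div_le_iff₀ hqR]
        have h3 : (r : ℝ) ≤ 8 * b * q := by
          have h4 : 8 * b ≤ r := hr
          have h5 : r ≤ 8 * b * q := by
            have h7 : u ≤ 2 * 2 ^ e - 1 := by rw [← pow_succ']; omega
            have h6 : 2 ^ e ≤ q := Nat.le_mul_of_pos_left _ (by omega)
            have h1' : r < (u + 1) * (4 * b) :=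
              (Nat.div_lt_iff_lt_mul (by omega : 0 < 4 * b)).1 (Nat.lt_succ_self _)
            have h8 : (u + 1) * (4 * b) ≤ (2 * q) * (4 * b) := Nat.mul_le_mul_right _ (by omega)
            nlinarith
          exact_mod_cast h5
        calc (y : ℝ) ≤ C₁ * r := hy
          _ ≤ C₁ * (8 * b * q) := by gcongr
          _ = _ := by ring
      have h3 : (c : ℝ) < P₀ := by
        rw [hc]; push_cast
        linarith
      exact_mod_cast h3.le

theorem niven (b h : ℕ) (hb : 2 ≤ b) (ε : ℝ) (hε : 0 < ε) :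
    ∃ κ : ℝ, 0 < κ ∧ ∃ M₀ : ℕ, ∀ M : ℕ, M₀ ≤ M → ∃ n : ℕ, M < n ∧ (n : ℝ) ≤ M + (M : ℝ) ^ ε ∧
      ds b n ^ h ∣ n ∧ ∀ p : ℕ, p.Prime → κ * F (Real.log M) < |(p : ℝ) - n| := by
  have hbR : (2 : ℝ) ≤ b := by exact_mod_cast hb
  have hlb : 0 < Real.log b := Real.log_pos (by linarith)
  set ε' : ℝ := min ε 1 with hε'
  have hε'0 : 0 < ε' := lt_min hε one_pos
  have hε'1 : ε' ≤ 1 := min_le_right _ _
  set C₀ : ℝ := 4 / ε' + 2 with hC₀
  have hC₀1 : 1 ≤ C₀ := by
    have : 0 ≤ 4 / ε' := by positivity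
    linarith
  set C₁ : ℝ := b * C₀ + 1 with hC₁
  have hC₁1 : 1 ≤ C₁ := by
    have : 0 ≤ (b : ℝ) * C₀ := by positivity
    linarith
  obtain ⟨P, hP⟩ := exists_s b hb C₁ hC₁1
  obtain ⟨κ, hκ, r₀, hmain⟩ := main2 b P h hb ((2 * C₁) ^ h) (1 / 4) (by norm_num)
  obtain ⟨R, hR⟩ := F_scale (1 / C₀) (by positivity)
  -- the number of digits
  have hlogt : Tendsto (fun M : ℕ => ((Nat.log b M : ℕ) : ℝ)) atTop atTop := by
    apply tendsto_natCast_atTop_atTop.comp
    rw [tendsto_atTop]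
    intro K
    filter_upwards [eventually_ge_atTop (b ^ K)] with M hM
    exact Nat.le_log_of_pow_le (by omega) hM
  have hlogM : Tendsto (fun M : ℕ => Real.log (M : ℝ)) atTop atTop :=
    Real.tendsto_log_atTop.comp tendsto_natCast_atTop_atTop
  obtain ⟨M₀, hM₀⟩ := eventually_atTop.1 (((hlogt.eventually_ge_atTop
    (2 * (max (r₀ : ℝ) (8 * b) + 2) / ε')).and (hlogM.eventually_ge_atTop R)).and
      (eventually_ge_atTop b))
  refine ⟨κ * (1 / C₀ / 8), by positivity, M₀, fun M hM => ?_⟩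
  obtain ⟨⟨b1, b2⟩, b3⟩ := hM₀ M hM
  set N := Nat.log b M with hN
  have hMN : b ^ N ≤ M := Nat.pow_log_le_self b (by omega)
  have hMN' : M < b ^ (N + 1) := Nat.lt_pow_succ_log_self (by omega) M
  set r : ℕ := ⌊ε' * N / 2⌋₊ with hr
  have hN0 : (0 : ℝ) ≤ ε' * N / 2 := by positivity
  have hr1 : (r : ℝ) ≤ ε' * N / 2 := Nat.floor_le hN0
  have hr2 : ε' * N / 2 < r + 1 := Nat.lt_floor_add_one _
  rw [div_le_iff₀ hε'0] at b1
  have hr3 : max (r₀ : ℝ) (8 * b) + 1 ≤ r := by linarith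
  have hrr₀ : r₀ ≤ r := by
    have : (r₀ : ℝ) ≤ r := by linarith [le_max_left (r₀ : ℝ) (8 * b)]
    exact_mod_cast this
  have hr8 : 8 * b ≤ r := by
    have : (8 * b : ℝ) ≤ r := by linarith [le_max_right (r₀ : ℝ) (8 * b)]
    exact_mod_cast this
  have hr16 : 16 ≤ r := by omega
  have hr16R : (16 : ℝ) ≤ r := by exact_mod_cast hr16
  have hrN : r + 1 ≤ N := by
    have h1 : (r : ℝ) + 1 ≤ N := by
      have h2 : ε' * N ≤ 1 * N := mul_le_mul_of_nonneg_right hε'1 (Nat.cast_nonneg _)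
      linarith
    exact_mod_cast h1
  have hNr : (N : ℝ) + 1 ≤ C₀ * r := by
    have h1 : (N : ℝ) ≤ 2 * (r + 1) / ε' := by
      rw [le_div_iff₀ hε'0]; linarith
    have h2 : 2 * ((r : ℝ) + 1) / ε' ≤ 4 / ε' * r := by
      rw [div_mul_eq_mul_div]
      apply div_le_div_of_nonneg_right _ hε'0.le
      linarith
    rw [hC₀]; linarith
  -- the prefix
  set A := M / b ^ r + 1 with hA
  have hbr : 0 < b ^ r := pow_pos (by omega) r
  have hAM : M < A * b ^ r := by
    rw [hA, mul_comm]; exact Nat.lt_mul_div_succ M hbr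
  have hAM2 : A * b ^ r ≤ M + b ^ r := by
    rw [hA, add_mul, one_mul]
    have := Nat.div_mul_le_self M (b ^ r)
    omega
  have hAlt : A < b ^ (N + 1) := by
    have h1 : b ^ 1 ≤ b ^ r := Nat.pow_le_pow_right (by omega) (by omega)
    rw [pow_one] at h1
    have h2 : M / b ^ r ≤ M / b := Nat.div_le_div_left h1 (by omega)
    have h3 : M / b < M := Nat.div_lt_self (by omega) (by omega)
    omega
  have hdsA := ds_le hb (N + 1) A hAlt
  set y := ds b A + (r / 4 + 1) with hy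
  have hyC : (y : ℝ) ≤ C₁ * r := by
    have h1 : (ds b A : ℝ) ≤ b * (N + 1) := by
      have h2 : ds b A ≤ b * (N + 1) := hdsA.trans (Nat.mul_le_mul_right _ (Nat.sub_le _ _))
      exact_mod_cast h2
    have h2 : ((r / 4 + 1 : ℕ) : ℝ) ≤ r := by
      have : r / 4 + 1 ≤ r := by omega
      exact_mod_cast this
    have h3 : (b : ℝ) * (N + 1) ≤ b * (C₀ * r) := by gcongr
    rw [hy, hC₁]
    push_cast at h2 ⊢
    linarith
  obtain ⟨s, hs1, hs2, hs3, hs4⟩ := hP r y hr8 hyC
  -- the sum of digits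
  set t := s - ds b A with ht
  have hst : ds b A + t = s := by omega
  have ht1 : r / 4 + 1 < t := by omega
  have ht2 : 4 * t ≤ 2 * r + 4 := by omega
  have hs0 : 0 < s := by omega
  have hsC : (s : ℝ) ≤ 2 * C₁ * r := by
    have h1 : s ≤ y + r := by omega
    have h2 : (s : ℝ) ≤ y + r := by exact_mod_cast h1
    have h3 : (r : ℝ) ≤ C₁ * r := by
      have := mul_le_mul_of_nonneg_right hC₁1 (show (0 : ℝ) ≤ r by positivity)
      linarith
    linarith
  obtain ⟨n, hn1, hn2, hn3, hn4, hn5⟩ := hmain r hrr₀ (s ^ h) (Nat.pos_of_ne_zero (by positivity))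
    (by
      push_cast
      calc (s : ℝ) ^ h ≤ (2 * C₁ * r) ^ h := pow_le_pow_left₀ (by positivity) hsC h
        _ = _ := by rw [mul_pow])
    (fun p hp hps => hs4 p hp (hp.dvd_of_dvd_pow hps)) A t 0
    (by
      have h1 : r ≤ 4 * t := by omega
      have h2 : (r : ℝ) ≤ 4 * t := by exact_mod_cast h1
      linarith)
    (by
      have h1 : (4 : ℝ) * t ≤ 2 * r + 4 := by exact_mod_cast ht2
      have h2 : (3 / 4 : ℝ) * r ≤ ((b : ℝ) - 1 - 1 / 4) * r := by
        apply mul_le_mul_of_nonneg_right _ (by positivity)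
        linarith
      linarith)
    (by
      rw [hst]
      exact (Nat.modEq_zero_iff_dvd.2 ((Nat.gcd_dvd_right _ _).trans hs3)).symm)
  refine ⟨n, lt_of_lt_of_le hAM hn1, ?_, ?_, ?_⟩
  · have h1 : n ≤ M + b ^ (r + 1) := by
      have h2 : (A + 1) * b ^ r ≤ M + 2 * b ^ r := by
        rw [add_mul, one_mul]; omega
      have h3 : 2 * b ^ r ≤ b ^ (r + 1) := by
        rw [pow_succ']; exact Nat.mul_le_mul_right _ hb
      omega
    have h2 : (n : ℝ) ≤ M + (b : ℝ) ^ (r + 1) := by exact_mod_cast h1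
    refine h2.trans ?_
    have h3 : (b : ℝ) ^ (r + 1) ≤ (M : ℝ) ^ ε' := by
      have h4 : ((b : ℝ) ^ N) ^ ε' ≤ (M : ℝ) ^ ε' := by
        apply Real.rpow_le_rpow (by positivity) _ hε'0.le
        exact_mod_cast hMN
      refine le_trans ?_ h4
      rw [← Real.rpow_natCast (b : ℝ) N, ← Real.rpow_mul (by linarith), ← Real.rpow_natCast]
      apply Real.rpow_le_rpow_of_exponent_le (by linarith)
      push_cast
      linarith
    have h4 : (M : ℝ) ^ ε' ≤ (M : ℝ) ^ ε := by
      apply Real.rpow_le_rpow_of_exponent_le _ (min_le_left _ _)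
      have : 1 ≤ M := by omega
      exact_mod_cast this
    linarith
  · rw [hn3, hst]
    exact Nat.modEq_zero_iff_dvd.1 hn4
  · intro p hp
    refine lt_of_le_of_lt ?_ (hn5 p hp)
    have hMR : (0 : ℝ) < M := by
      have : 0 < M := by omega
      exact_mod_cast this
    have h1 : 1 / C₀ * Real.log M ≤ Real.log ((b : ℝ) ^ r) := by
      have h2 : Real.log M ≤ (N + 1) * Real.log b := by
        have h3 : (M : ℝ) ≤ (b : ℝ) ^ (N + 1) := by exact_mod_cast hMN'.le
        have h4 := Real.log_le_log hMR h3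
        rw [Real.log_pow] at h4
        push_cast at h4
        exact h4
      rw [Real.log_pow, one_div, inv_mul_le_iff₀ (by linarith)]
      calc Real.log M ≤ (N + 1) * Real.log b := h2
        _ ≤ (C₀ * r) * Real.log b := mul_le_mul_of_nonneg_right hNr hlb.le
        _ = _ := by ring
    have h2 : Real.log ((b : ℝ) ^ r) ≤ Real.log M := by
      apply Real.log_le_log (by positivity)
      have h3 : b ^ r ≤ M := (Nat.pow_le_pow_right (by omega) (by omega : r ≤ N)).trans hMN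
      exact_mod_cast h3
    obtain ⟨-, h3⟩ := hR _ b2 _ h1 h2
    calc κ * (1 / C₀ / 8) * F (Real.log M) = κ * (1 / C₀ / 8 * F (Real.log M)) := by ring
      _ ≤ κ * F (Real.log ((b : ℝ) ^ r)) := mul_le_mul_of_nonneg_left h3 hκ.le

end Pool.Agent.helper391_NV
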